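import Mathlib

/-!
# Graphs whose total dominating sets are all ODPU-sets

A finite connected simple graph has the property that every total dominating set is an open
distance pattern uniform set if and only if it is a complete graph.
-/

set_option autoImplicit false

namespace Pool.Agent.Results.MP_10a600_co.OnlyComplete

variable {V : Type*}

/-- The open `M`-distance pattern of `u`: the set of distances `d(u, v)` with `v ∈ M`, `v ≠ u`. -/
def openPattern (G : SimpleGraph V) (M : Set V) (u : V) : Set ℕ :=
  {k | ∃ v ∈ M, v ≠ u ∧ G.dist u v = k}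

/-- `M` is an ODPU-set: it is nonempty and all vertices have the same open `M`-distance
pattern. -/
def IsODPU (G : SimpleGraph V) (M : Set V) : Prop :=
  M.Nonempty ∧ ∀ u v : V, openPattern G M u = openPattern G M v

/-- `S` is a total dominating set: every vertex has a neighbour in `S`. -/
def IsTotalDominating (G : SimpleGraph V) (S : Set V) : Prop :=
  ∀ v : V, ∃ w ∈ S, G.Adj v w

lemma exists_adj_dist_lt (G : SimpleGraph V) (hG : G.Connected) (u x : V) (hx : x ≠ u) :
    ∃ y, G.Adj x y ∧ G.dist u y < G.dist u x := by
  obtain ⟨p, hp⟩ := hG.exists_walk_length_eq_dist x u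
  cases p with
  | nil => exact absurd rfl hx
  | @cons _ y _ h q =>
    refine ⟨y, h, ?_⟩
    have h1 : G.dist y u ≤ q.length := SimpleGraph.dist_le q
    rw [SimpleGraph.Walk.length_cons] at hp
    rw [SimpleGraph.dist_comm (u := u) (v := y), SimpleGraph.dist_comm (u := u) (v := x)]
    omega

/-- **Main theorem.** For a finite connected simple graph `G`, every total dominating set of `G`
is an ODPU-set if and only if `G` is complete. -/
theorem result (V : Type*) [Finite V] (G : SimpleGraph V) (hG : G.Connected) :
    (∀ S : Set V, IsTotalDominating G S → IsODPU G S) ↔ G = ⊤ := by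
  constructor
  · intro H
    by_contra hne
    obtain ⟨u, v, huv, hadj⟩ : ∃ u v, u ≠ v ∧ ¬ G.Adj u v := by
      by_contra hcon
      push Not at hcon
      apply hne
      ext a b
      rw [SimpleGraph.top_adj]
      exact ⟨fun h => h.ne, fun h => hcon a b h⟩
    -- a vertex at maximal distance from `u`
    haveI : Nonempty V := ⟨u⟩
    obtain ⟨w, hw⟩ := Finite.exists_max (fun x => G.dist u x)
    have hd2 : 2 ≤ G.dist u w := by
      have h1 : G.dist u v ≤ G.dist u w := hw v
      have h2 : G.dist u v ≠ 0 := by
        intro h0
        exact huv ((hG.dist_eq_zero_iff).1 h0)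
      have h3 : G.dist u v ≠ 1 := by
        intro h0
        exact hadj (SimpleGraph.dist_eq_one_iff_adj.1 h0)
      omega
    set d := G.dist u w with hd
    have hS : IsTotalDominating G {x | G.dist u x ≠ d} := by
      intro x
      by_cases hx : x = u
      · subst hx
        obtain ⟨y, hy, hlt⟩ := exists_adj_dist_lt G hG v x huv
        refine ⟨y, ?_, hy⟩
        have : G.dist x y = 1 := SimpleGraph.dist_eq_one_iff_adj.2 hy
        simp only [Set.mem_setOf_eq]
        omega
      · obtain ⟨y, hy, hlt⟩ := exists_adj_dist_lt G hG u x hx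
        refine ⟨y, ?_, hy⟩
        have := hw x
        simp only [Set.mem_setOf_eq]
        omega
    obtain ⟨-, huni⟩ := H _ hS
    have hmem : d ∈ openPattern G {x | G.dist u x ≠ d} w := by
      refine ⟨u, ?_, ?_, ?_⟩
      · simp only [Set.mem_setOf_eq, SimpleGraph.dist_self]
        omega
      · rintro rfl
        simp at hd
        omega
      · rw [SimpleGraph.dist_comm]
    rw [huni w u] at hmem
    obtain ⟨y, hy, -, hyd⟩ := hmem
    exact hy hyd
  · rintro rfl S hS
    have hpat : ∀ u : V, openPattern (⊤ : SimpleGraph V) S u = {1} := by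
      intro u
      ext k
      simp only [openPattern, Set.mem_setOf_eq, Set.mem_singleton_iff]
      constructor
      · rintro ⟨v, -, hvu, rfl⟩
        exact SimpleGraph.dist_eq_one_iff_adj.2 ((SimpleGraph.top_adj _ _).2 (Ne.symm hvu))
      · rintro rfl
        obtain ⟨w, hw, hadj⟩ := hS u
        exact ⟨w, hw, hadj.ne', SimpleGraph.dist_eq_one_iff_adj.2 hadj⟩
    obtain ⟨v⟩ := hG.nonempty
    obtain ⟨w, hw, -⟩ := hS v
    exact ⟨⟨w, hw⟩, fun a b => by rw [hpat a, hpat b]⟩

end Pool.Agent.Results.MP_10a600_co.OnlyComplete
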